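import Pool.Agent.H17.BO.TargetsG
import Pool.Agent.H17.VG.TargetsE

/-!
# (MS) Mason's inequality for `t` and `1 - t`
-/

set_option autoImplicit false

namespace Pool.Agent.H22.BO

open MvPolynomial SC Pool.Agent.H27.LV Pool.Agent.H17.VG Pool.Agent.H17.BO

/-- `ram v w ≠ 0` means that `w` lies over `v` -/
private theorem over_ram {k K L : Type} [Field k] [Field K] [Field L] [Algebra k K]
    [Algebra k L] [Algebra K L] (v : DV k K) (w : DV k L) (h : ram v w ≠ 0) :
    Over v w (ram v w) := by
  unfold ram at h ⊢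
  split_ifs with h1
  · exact h1.choose_spec
  · exact absurd (dif_neg h1) h

/-- the local estimate for the logarithmic derivative -/
private theorem loc {k L : Type} [Field k] [Field L] [Algebra k L] (w : DV k L)
    (D' : Derivation k L L) (δ : ℤ) (hD : DOrd w D' δ) (t : L) (ht : D' t ≠ 0) :
    (p1 w t : ℤ) + δ - 1 ≤ w.ord (D' t / (t * (1 - t))) := by
  have ht0 : t ≠ 0 := by
    rintro rfl
    exact ht (map_zero D')
  have ht1 : 1 - t ≠ 0 := by
    intro h
    have : t = 1 := (sub_eq_zero.1 h).symm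
    rw [this] at ht
    exact ht D'.map_one_eq_zero
  have e1 : w.ord (D' t / (t * (1 - t))) = w.ord (D' t) - (w.ord t + w.ord (1 - t)) := by
    rw [w.ord_div ht (mul_ne_zero ht0 ht1), w.ord_mul' ht0 ht1]
  have hge : ∀ s : ℤ, ge w s (D' t) → s ≤ w.ord (D' t) := fun s h => h.resolve_left ht
  have hone : w.ord (1 : L) = 0 := w.ord_one
  have hp : (p1 w t : ℤ) = max (-(w.ord t)) 0 := by
    unfold p1
    exact Int.ofNat_toNat _
  have b1 : w.ord t - 1 + δ ≤ w.ord (D' t) := hge _ (hD.2 t ht0)
  rcases lt_trichotomy (w.ord t) 0 with h | h | h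
  · -- a pole
    have h2 : w.ord (1 - t) = w.ord t := by
      have h3 : w.ord (-t + 1) = w.ord (-t) := by
        refine (w.ord_add_eq_left (neg_ne_zero.2 ht0) fun _ => ?_).2
        rw [w.ord_neg, hone]
        exact h
      rw [w.ord_neg] at h3
      rw [← h3]
      congr 1
      ring
    rw [e1, h2, hp, max_eq_left (by omega)]
    omega
  · -- a unit
    have h2 : 0 ≤ w.ord (1 - t) := w.ord_sub_nonneg hone.ge h.ge
    rcases h2.eq_or_lt with h3 | h3
    · have b2 : δ ≤ w.ord (D' t) := hge _ (hD.1 t h.ge)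
      rw [e1, hp, h, ← h3]
      simp only [neg_zero, max_self]
      omega
    · have b2 : w.ord (1 - t) - 1 + δ ≤ w.ord (D' t) := by
        refine hge _ ?_
        have h4 := hD.2 (1 - t) ht1
        have h5 : D' (1 - t) = -(D' t) := by
          rw [map_sub, D'.map_one_eq_zero, zero_sub]
        rw [h5] at h4
        rcases h4 with h4 | h4
        · exact absurd (neg_eq_zero.1 h4) ht
        · right
          rwa [w.ord_neg] at h4
      rw [e1, hp, h]
      simp only [neg_zero, max_self]
      omega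
  · -- a zero
    have h2 : w.ord (1 - t) = 0 := by
      have h3 : w.ord (1 + -t) = w.ord (1 : L) := by
        refine (w.ord_add_eq_left one_ne_zero fun _ => ?_).2
        rw [w.ord_neg, hone]
        exact h
      rw [hone] at h3
      rw [← h3, sub_eq_add_neg]
    rw [e1, h2, hp, max_eq_right (by omega)]
    omega

theorem pf_MS (hPFM : T_PFM) (hDOR : T_DOR) (hDFI : T_DFI) (hPFI : T_PFI) (hFS : T_FS)
    (hRHL : T_RHL) (hOV : T_OV) : T_MS := by
  classical
  intro k K L _ _ _ _ _ _ _ _ _ _ _ _ htK htL D D' hD hD' hDD S t ht hgood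
  have ht0 : t ≠ 0 := by
    rintro rfl
    exact ht (map_zero D')
  have ht1 : 1 - t ≠ 0 := by
    intro h
    have : t = 1 := (sub_eq_zero.1 h).symm
    rw [this] at ht
    exact ht D'.map_one_eq_zero
  -- the place below
  choose vv hvv using fun w : DV k L => (hOV k K L w).1
  have huniq : ∀ (v : DV k K) (w : DV k L), ram v w ≠ 0 → v = vv w := fun v w h =>
    (hOV k K L w).2.2 v (vv w) _ _ (over_ram v w h) (hvv w).1
  -- the two sums
  have f1 := hFS k K L htK (fun v => ordD v D) (hDFI k K htK D hD)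
    (fun w => ram (vv w) w * ordD (vv w) D) (fun v w h => by
      rw [huniq v w h])
  have hS : {v : DV k K | (if v ∈ S then (1 : ℤ) else 0) ≠ 0}.Finite := by
    refine S.finite_toSet.subset fun v hv => ?_
    by_contra h
    have h2 : v ∉ S := h
    exact hv (if_neg h2)
  have f2 := hFS k K L htK (fun v => if v ∈ S then (1 : ℤ) else 0) hS
    (fun w => ram (vv w) w * (if vv w ∈ S then (1 : ℤ) else 0)) (fun v w h => by
      rw [huniq v w h])
  have hSc : ∑ᶠ v : DV k K, (if v ∈ S then (1 : ℤ) else 0) = S.card := by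
    rw [finsum_eq_sum_of_support_subset (s := S) _ (fun v hv => by
      by_contra h
      have h2 : v ∉ S := h
      exact hv (if_neg h2))]
    rw [Finset.sum_congr rfl fun v hv => if_pos hv]
    simp
  -- the local inequality
  have hloc : ∀ w : DV k L, (p1 w t : ℤ) + ram (vv w) w * ordD (vv w) D -
      ram (vv w) w * (if vv w ∈ S then (1 : ℤ) else 0) ≤ w.ord (D' t / (t * (1 - t))) := by
    intro w
    by_cases h : vv w ∈ S
    · have h1 := hRHL k K L htK htL D D' hD hD' hDD (vv w) w _ (hvv w).1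
      have h2 := loc w D' (ordD w D') (hDOR k L htL D' hD' w).2.1 t ht
      rw [if_pos h]
      rw [h1] at h2
      linarith
    · obtain ⟨h1, h2, h3⟩ := hgood (vv w) w _ (hvv w).1 h
      rw [if_neg h]
      have e1 : w.ord (D' t / (t * (1 - t))) = w.ord (D' t) - (w.ord t + w.ord (1 - t)) := by
        rw [w.ord_div ht (mul_ne_zero ht0 ht1), w.ord_mul' ht0 ht1]
      have hp : (p1 w t : ℤ) = 0 := by
        unfold p1
        rw [h1]
        simp
      have h4 := h3.resolve_left ht
      rw [e1, h1, h2, hp]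
      linarith
  -- summation
  have hpf := hPFM k L htL (D' t / (t * (1 - t)))
  have hpi := hPFI k L htL (Fin 1) (fun _ => t)
  have hpo : ∀ w : DV k L, poleOrder w (fun _ : Fin 1 => t) = p1 w t := by
    intro w
    unfold poleOrder p1
    simp
  let T : Finset (DV k L) := hpf.1.toFinset ∪ hpi.toFinset ∪ f1.1.toFinset ∪ f2.1.toFinset
  have s0 : ∑ᶠ w : DV k L, w.ord (D' t / (t * (1 - t))) =
      ∑ w ∈ T, w.ord (D' t / (t * (1 - t))) :=
    finsum_eq_sum_of_support_subset _ fun w hw => by
      have : w ∈ hpf.1.toFinset := hpf.1.mem_toFinset.2 hw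
      simp only [T, Finset.coe_union, Set.mem_union, Finset.mem_coe]
      tauto
  have s1 : ∑ᶠ w : DV k L, (ram (vv w) w * ordD (vv w) D : ℤ) =
      ∑ w ∈ T, (ram (vv w) w * ordD (vv w) D : ℤ) :=
    finsum_eq_sum_of_support_subset _ fun w hw => by
      have : w ∈ f1.1.toFinset := f1.1.mem_toFinset.2 hw
      simp only [T, Finset.coe_union, Set.mem_union, Finset.mem_coe]
      tauto
  have s2 : ∑ᶠ w : DV k L, (ram (vv w) w * (if vv w ∈ S then (1 : ℤ) else 0) : ℤ) =
      ∑ w ∈ T, (ram (vv w) w * (if vv w ∈ S then (1 : ℤ) else 0) : ℤ) :=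
    finsum_eq_sum_of_support_subset _ fun w hw => by
      have : w ∈ f2.1.toFinset := f2.1.mem_toFinset.2 hw
      simp only [T, Finset.coe_union, Set.mem_union, Finset.mem_coe]
      tauto
  have s3 : (h1 k t : ℤ) = ∑ w ∈ T, (p1 w t : ℤ) := by
    have : h1 k t = ∑ w ∈ T, poleOrder w (fun _ : Fin 1 => t) :=
      finsum_eq_sum_of_support_subset _ fun w hw => by
        have : w ∈ hpi.toFinset := hpi.mem_toFinset.2 hw
        simp only [T, Finset.coe_union, Set.mem_union, Finset.mem_coe]
        tauto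
    rw [this]
    push_cast
    exact Finset.sum_congr rfl fun w _ => by rw [hpo]
  have hmain := Finset.sum_le_sum fun (w : DV k L) (_ : w ∈ T) => hloc w
  rw [Finset.sum_sub_distrib, Finset.sum_add_distrib, ← s0, ← s1, ← s2, ← s3, hpf.2, f1.2,
    f2.2, hSc] at hmain
  have hcd : canDeg D = - ∑ᶠ v : DV k K, ordD v D := rfl
  rw [hcd, mul_add, mul_neg]
  linarith

end Pool.Agent.H22.BO
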